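import Mathlib
import Pool.Agent.L7h19.IS.Cat2
import Pool.Agent.L7h19.IK.Comb
import Pool.Agent.L7h19.FT.Stm

/-!
# Project FT: the combinatorial lemma for the tuples `TK`
-/

set_option autoImplicit false
set_option linter.unusedSectionVars false

namespace Pool.Agent.L7h72.FT

open Finset Pool.Agent.L7h19.IS Pool.Agent.L7h19.FT
open Pool.Agent.L7h19.IK (fo fo_apply zm2)

variable {J : Type} [Fintype J] [DecidableEq J] {k : ℕ}

lemma LT_symm {cls : J → Fin 3} {i l : LabT J k} (hc : cls i.1 ≠ cls l.1) :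
    (LT cls k i l = LT cls k l i) ↔ fo k l.2 i.2 = 0 := by
  rw [fo_apply]
  unfold Pool.Agent.L7h19.FT.LT
  rw [decide_eq_true hc, decide_eq_true (Ne.symm hc), Bool.true_and, Bool.true_and, zm2,
    dotProduct_comm l.2.1 i.2.2]

/-- **the combinatorial condition** -/
theorem combT (cls : J → Fin 3) (k : ℕ) (U S : Finset (LabT J k)) (hUS : Disjoint U S)
    (hU : ∀ i ∈ U, ∀ l ∈ U, LT cls k i l = LT cls k l i) (hQ : QT cls k (U ∪ S)) :
    (∑ _i ∈ UL (LT cls k) U S, (1 / 2 ^ k : ℝ)) ≤ Fintype.card J ∧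
      (S.Nonempty → (∑ _i ∈ UL (LT cls k) U S, (1 / 2 ^ k : ℝ)) < Fintype.card J) := by
  classical
  set W := UL (LT cls k) U S with hW
  have hWm : ∀ e, e ∈ W ↔ e ∈ U ∧ ∀ l ∈ S, LT cls k e l = LT cls k l e := fun e => by
    rw [hW]
    unfold UL
    simp only [mem_filter]
  have hWU : ∀ e ∈ W, e ∈ U := fun e he => ((hWm e).1 he).1
  have hWH : ∀ e ∈ W, ∀ s ∈ U ∪ S, cls e.1 ≠ cls s.1 → fo k s.2 e.2 = 0 := by
    intro e he s hs hc
    rw [← LT_symm hc]
    rcases mem_union.1 hs with h | h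
    · exact hU e (hWU e he) s h
    · exact ((hWm e).1 he).2 s h
  -- the spaces spanned by the vectors of a class
  set D : Fin 3 → Submodule (ZMod 2) ((Fin k → ZMod 2) × (Fin k → ZMod 2)) := fun c =>
    Submodule.span (ZMod 2) {t | ∃ e ∈ W, cls e.1 = c ∧ e.2 = t} with hD
  have hWD : ∀ e ∈ W, e.2 ∈ D (cls e.1) := fun e he => Submodule.subset_span ⟨e, he, rfl, rfl⟩
  have hDH : ∀ c, ∀ t ∈ D c, ∀ s ∈ U ∪ S, cls s.1 ≠ c → fo k s.2 t = 0 := by
    intro c t ht s hs hc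
    have h1 : D c ≤ LinearMap.ker (fo k s.2) := by
      rw [hD]
      dsimp only
      rw [Submodule.span_le]
      rintro t ⟨e, he, hec, rfl⟩
      exact hWH e he s hs (by rw [hec]; exact Ne.symm hc)
    exact h1 ht
  -- no vectors with first component zero
  have hQ' : ∀ c : Fin 3, ∀ y : Fin k → ZMod 2, y ≠ 0 → ∃ s ∈ U ∪ S, cls s.1 ≠ c ∧
      y ⬝ᵥ s.2.1 ≠ 0 := by
    intro c y hy
    obtain ⟨i, hi, l, hl, hc, h1, h2⟩ := hQ y hy
    by_cases h : cls i.1 = c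
    · exact ⟨l, hl, fun h3 => hc (h.trans h3.symm), h2⟩
    · exact ⟨i, hi, h, h1⟩
  have hD0 : ∀ c, ∀ t ∈ D c, t.1 = 0 → t = 0 := by
    intro c t ht ht1
    have h1 : t.2 = 0 := by
      by_contra hne
      obtain ⟨s, hs, hc, h2⟩ := hQ' c t.2 hne
      have h3 := hDH c t ht s hs hc
      rw [fo_apply, ht1, zero_dotProduct, zero_add] at h3
      exact h2 h3
    exact Prod.ext ht1 h1
  have hinj : ∀ c, ∀ t ∈ D c, ∀ t' ∈ D c, t.1 = t'.1 → t = t' := by
    intro c t ht t' ht' h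
    have h1 := hD0 c (t - t') ((D c).sub_mem ht ht') (by rw [Prod.fst_sub, h, sub_self])
    exact sub_eq_zero.1 h1
  have hcV : (univ : Finset (Fin k → ZMod 2)).card = 2 ^ k := by
    rw [card_univ]
    simp [ZMod.card]
  -- the fibres
  set c : J → Finset ((Fin k → ZMod 2) × (Fin k → ZMod 2)) :=
    fun j => univ.filter (fun x => (j, x) ∈ W) with hc
  have hcm : ∀ j x, x ∈ c j ↔ (j, x) ∈ W := fun j x => by
    rw [hc]
    simp
  have hcD : ∀ j, ∀ t ∈ c j, t ∈ D (cls j) := fun j t ht => hWD (j, t) ((hcm j t).1 ht)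
  have hcard : ∀ j, (c j).card ≤ 2 ^ k := by
    intro j
    rw [← hcV]
    refine card_le_card_of_injOn (fun t => t.1) (fun _ _ => mem_coe.2 (mem_univ _)) ?_
    intro t ht t' ht' h
    exact hinj (cls j) t (hcD j t (mem_coe.1 ht)) t' (hcD j t' (mem_coe.1 ht')) h
  have hsurj : ∀ j, (c j).card = 2 ^ k → ∀ x : Fin k → ZMod 2, ∃ t ∈ c j, t.1 = x := by
    intro j hj x
    have h1 : (c j).image (fun t => t.1) = univ := by
      apply eq_univ_of_card
      rw [card_image_of_injOn, hj]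
      · simp [ZMod.card]
      · intro t ht t' ht' h
        exact hinj (cls j) t (hcD j t (mem_coe.1 ht)) t' (hcD j t' (mem_coe.1 ht')) h
    have h2 : x ∈ (c j).image (fun t => t.1) := by rw [h1]; exact mem_univ _
    obtain ⟨t, ht, h3⟩ := mem_image.1 h2
    exact ⟨t, ht, h3⟩
  have hWc : W.card = ∑ j, (c j).card := by
    have e1 : W.card = ∑ i : LabT J k, if i ∈ W then 1 else 0 := by
      rw [← card_filter]
      congr 1
      ext i
      simp
    rw [e1, Fintype.sum_prod_type]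
    refine sum_congr rfl fun j _ => ?_
    rw [hc]
    dsimp only
    rw [card_filter]
  have h2k : (0 : ℝ) < 2 ^ k := by positivity
  have hsum : (∑ _i ∈ W, (1 / 2 ^ k : ℝ)) = ∑ j, ((c j).card : ℝ) / 2 ^ k := by
    rw [sum_const, nsmul_eq_mul, hWc, ← sum_div]
    push_cast
    ring
  have hJ : (Fintype.card J : ℝ) = ∑ _j : J, (1 : ℝ) := by
    rw [sum_const, card_univ, nsmul_eq_mul, mul_one]
  rw [hsum, hJ]
  have hle : ∀ j, ((c j).card : ℝ) / 2 ^ k ≤ 1 := fun j => by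
    rw [div_le_one h2k]
    exact_mod_cast hcard j
  refine ⟨sum_le_sum fun j _ => hle j, ?_⟩
  rintro ⟨s, hs⟩
  have hsH : s ∈ U ∪ S := mem_union_right _ hs
  by_contra hcon
  have hfull : ∀ j, (c j).card = 2 ^ k := by
    intro j
    by_contra hne
    have hlt : (c j).card < 2 ^ k := lt_of_le_of_ne (hcard j) hne
    apply hcon
    refine sum_lt_sum (fun j _ => hle j) ⟨j, mem_univ _, ?_⟩
    rw [div_lt_one h2k]
    exact_mod_cast hlt
  obtain ⟨t, ht, ht1⟩ := hsurj s.1 (hfull s.1) s.2.1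
  have htD := hcD _ t ht
  have hy : s.2.2 - t.2 = 0 := by
    by_contra hne
    obtain ⟨l, hl, hlc, _⟩ := hQ' (cls s.1) _ hne
    apply hne
    rw [← dotProduct_eq_zero_iff]
    intro x
    obtain ⟨t', ht', ht1'⟩ := hsurj l.1 (hfull l.1) x
    have hW' : ((l.1, t') : LabT J k) ∈ W := (hcm _ _).1 ht'
    have h2 : fo k s.2 t' = 0 := hWH (l.1, t') hW' s hsH hlc
    have h3 : fo k t' t = 0 := hDH (cls s.1) t htD (l.1, t') (mem_union_left _ (hWU _ hW')) hlc
    rw [fo_apply, ht1'] at h2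
    rw [fo_apply, ht1, ht1'] at h3
    rw [sub_dotProduct, dotProduct_comm s.2.2 x]
    have h4 : x ⬝ᵥ s.2.2 - t.2 ⬝ᵥ x =
      (x ⬝ᵥ s.2.2 + t'.2 ⬝ᵥ s.2.1) - (s.2.1 ⬝ᵥ t'.2 + t.2 ⬝ᵥ x) := by
      rw [dotProduct_comm t'.2 s.2.1]
      ring
    rw [h4, h2, h3, sub_zero]
  have h5 : s.2 = t := Prod.ext ht1.symm (sub_eq_zero.1 hy)
  have h6 : s ∈ W := by
    have := (hcm s.1 t).1 ht
    rwa [← h5] at this
  exact disjoint_left.1 hUS (hWU s h6) hs

end Pool.Agent.L7h72.FT
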